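import Mathlib

set_option autoImplicit false

open Topology Filter Set Cardinal
open scoped OnePoint

namespace Pool.Agent.Results.MP_67072b_lc.TwoTop

/-- `N S`: the number of Polish semigroup topologies on the semigroup `S`. -/
noncomputable def N (S : Type) [Semigroup S] : Cardinal :=
  #{t : TopologicalSpace S // @ContinuousMul S t _ ∧ @PolishSpace S t}

/-- the symmetric group -/
def G : Type := Equiv.Perm ℕ

noncomputable instance : Group G := inferInstanceAs (Group (Equiv.Perm ℕ))

def G.ev (g : G) : ℕ → ℕ := (show Equiv.Perm ℕ from g)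

theorem ev_mul (g h : G) (n : ℕ) : (g * h).ev n = g.ev (h.ev n) := rfl
theorem ev_one (n : ℕ) : (1 : G).ev n = n := rfl
theorem ev_inv (g : G) (n : ℕ) : g.ev (g⁻¹.ev n) = n := by rw [← ev_mul, mul_inv_cancel, ev_one]
theorem inv_ev (g : G) (n : ℕ) : g⁻¹.ev (g.ev n) = n := by rw [← ev_mul, inv_mul_cancel, ev_one]

noncomputable def emb (g : G) : (ℕ → ℕ) × (ℕ → ℕ) := (g.ev, g⁻¹.ev)

noncomputable instance pw : TopologicalSpace G := TopologicalSpace.induced emb inferInstance

theorem c_emb : Continuous emb := continuous_induced_dom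

theorem c_app {X : Type} [TopologicalSpace X] {f : X → ℕ → ℕ} {n : X → ℕ} (hf : Continuous f)
    (hn : Continuous n) : Continuous fun x => f x (n x) := by
  refine continuous_iff_continuousAt.2 fun x => tendsto_const_nhds.congr' ?_
  filter_upwards [(hn.tendsto x).eventually (show ∀ᶠ m in 𝓝 (n x), m = n x by simp),
    (((continuous_apply (n x)).comp hf).tendsto x).eventually
      (show ∀ᶠ m in 𝓝 (f x (n x)), m = f x (n x) by simp)] with y h1 h2
  rw [h1]; exact h2.symm

theorem c_ev : Continuous G.ev := continuous_fst.comp c_emb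
theorem c_iev : Continuous fun g : G => g⁻¹.ev := continuous_snd.comp c_emb

instance : IsTopologicalGroup G where
  continuous_mul := continuous_induced_rng.2 (Continuous.prodMk
    (continuous_pi fun n => by
      simp only [ev_mul]
      exact c_app (c_ev.comp continuous_fst)
        ((continuous_apply n).comp (c_ev.comp continuous_snd)))
    (continuous_pi fun n => by
      simp only [mul_inv_rev, ev_mul]
      exact c_app (c_iev.comp continuous_snd)
        ((continuous_apply n).comp (c_iev.comp continuous_fst))))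
  continuous_inv := continuous_induced_rng.2 (Continuous.prodMk c_iev (by
    simp only [inv_inv]; exact c_ev))

instance : PolishSpace G := by
  refine IsClosedEmbedding.polishSpace (f := emb) ⟨⟨⟨rfl⟩, fun g h e => ?_⟩, ?_⟩
  · exact Equiv.ext (congrFun (congrArg Prod.fst e))
  · have : range emb = (⋂ n, {p | p.1 (p.2 n) = n}) ∩ ⋂ n, {p | p.2 (p.1 n) = n} := by
      ext p
      simp only [mem_inter_iff, mem_iInter]
      constructor
      · rintro ⟨g, rfl⟩
        exact ⟨ev_inv g, inv_ev g⟩
      · rintro ⟨h1, h2⟩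
        exact ⟨(⟨p.1, p.2, h2, h1⟩ : Equiv.Perm ℕ), rfl⟩
    rw [this]
    exact (isClosed_iInter fun n => isClosed_eq (c_app continuous_fst
      ((continuous_apply n).comp continuous_snd)) continuous_const).inter
      (isClosed_iInter fun n => isClosed_eq (c_app continuous_snd
      ((continuous_apply n).comp continuous_fst)) continuous_const)

/-- automatic continuity (Pettis-type argument) -/
theorem pettis {H : Type} [Mul H] [TopologicalSpace H] [PolishSpace H] [ContinuousMul H]
    (φ : G ≃ H) (hφ : ∀ a b, φ (a * b) = φ a * φ b) (hc : Continuous φ.symm) : Continuous φ := by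
  borelize G H
  have h1 : ∀ B : TopologicalSpace.countableBasis H, ∃ O, IsOpen O ∧ φ ⁻¹' B.1 =ᶠ[residual G] O := by
    intro B
    apply MeasurableSet.residualEq_isOpen
    rw [← φ.image_symm_eq_preimage]
    exact (TopologicalSpace.isOpen_of_mem_countableBasis B.2).measurableSet.image_of_continuousOn_injOn
      hc.continuousOn φ.symm.injective.injOn
  choose O hO hO' using h1
  haveI := (TopologicalSpace.countable_countableBasis H).to_subtype
  have hD : ∀ᶠ x in residual G, ∀ B, (φ ⁻¹' B.1) x = O B x := eventually_countable_forall.2 hO'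
  apply SeqContinuous.continuous
  intro g a hg
  have hD' : ∀ k : G, ∀ᶠ x in residual G, ∀ B, (φ ⁻¹' B.1) (k * x) = O B (k * x) := by
    intro k
    rw [← (Homeomorph.mulLeft k).residual_map_eq] at hD
    exact hD
  obtain ⟨h, ha, hn⟩ :=
    (dense_of_mem_residual ((hD' a).and (eventually_countable_forall.2 fun n => hD' (g n)))).nonempty
  have h2 : Tendsto (fun n => φ (g n * h)) atTop (𝓝 (φ (a * h))) := by
    rw [(TopologicalSpace.isBasis_countableBasis H).nhds_hasBasis.tendsto_right_iff]
    rintro B ⟨hB, hx⟩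
    have h3 : a * h ∈ O ⟨B, hB⟩ := (ha ⟨B, hB⟩).mp hx
    filter_upwards [(hg.mul_const h).eventually ((hO _).mem_nhds h3)] with n hn'
    exact (hn n ⟨B, hB⟩).mpr hn'
  have h3 := h2.mul_const (φ h⁻¹)
  simp only [← hφ, mul_inv_cancel_right] at h3
  exact h3

abbrev Y : Type := OnePoint ℕ

/-- the semigroup -/
def S : Type := G ⊕ Y

noncomputable def mul : S → S → S
  | .inl g, .inl h => .inl (g * h)
  | .inl g, .inr y => .inr (OnePoint.map g.ev y)
  | .inr y, .inl _ => .inr y
  | .inr _, .inr _ => .inr ∞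

noncomputable instance : Semigroup S where
  mul := mul
  mul_assoc := by
    rintro (a | a) (b | b) (c | c)
    · exact congrArg Sum.inl (mul_assoc a b c)
    · induction c using OnePoint.rec <;> rfl
    all_goals rfl

@[reducible] noncomputable def sumT (t : TopologicalSpace Y) : TopologicalSpace S :=
  @instTopologicalSpaceSum G Y pw t

theorem sum_mul (t : TopologicalSpace Y)
    (h : Continuous[@instTopologicalSpaceProd G Y pw t, t] fun p => OnePoint.map p.1.ev p.2) :
    @ContinuousMul S (sumT t) _ := by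
  letI := t
  refine @ContinuousMul.mk _ (sumT t) _ ?_
  show Continuous fun p : (G ⊕ Y) × (G ⊕ Y) => (show G ⊕ Y from mul p.1 p.2)
  rw [continuous_iff_continuousAt]
  rintro ⟨a | a, b | b⟩
  · rw [ContinuousAt, nhds_prod_eq, nhds_inl, nhds_inl, prod_map_map_eq, tendsto_map'_iff,
      ← nhds_prod_eq]
    exact (continuous_inl.comp continuous_mul).tendsto (a, b)
  · rw [ContinuousAt, nhds_prod_eq, nhds_inl, nhds_inr, prod_map_map_eq, tendsto_map'_iff,
      ← nhds_prod_eq]
    exact (continuous_inr.comp h).tendsto (a, b)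
  · rw [ContinuousAt, nhds_prod_eq, nhds_inl, nhds_inr, prod_map_map_eq, tendsto_map'_iff,
      ← nhds_prod_eq]
    exact (continuous_inr.comp continuous_fst).tendsto (a, b)
  · rw [ContinuousAt, nhds_prod_eq, nhds_inr, nhds_inr, prod_map_map_eq, tendsto_map'_iff]
    exact tendsto_const_nhds

theorem sum_polish (t : TopologicalSpace Y) (h : @PolishSpace Y t) : @PolishSpace S (sumT t) := by
  letI := t
  exact inferInstanceAs (PolishSpace (G ⊕ Y))

theorem polish_std : PolishSpace Y := by
  letI := TopologicalSpace.metrizableSpaceMetric Y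
  infer_instance

theorem act_nat (t : TopologicalSpace Y) (h : ∀ n : ℕ, IsOpen[t] {(n : Y)}) (g : G) (n : ℕ) :
    Tendsto (fun p : G × Y => OnePoint.map p.1.ev p.2)
      (@nhds _ (@instTopologicalSpaceProd G Y pw t) (g, (n : Y))) (@nhds _ t (g.ev n : Y)) := by
  letI := t
  refine tendsto_const_nhds.congr' ?_
  filter_upwards [(continuous_snd.tendsto (g, (n : Y))).eventually ((h n).mem_nhds rfl),
    (((continuous_apply n).comp (c_ev.comp continuous_fst)).tendsto (g, (n : Y))).eventually
      (show ∀ᶠ m in 𝓝 (g.ev n), m = g.ev n by simp)] with p h1 h2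
  have h3 : p.2 = n := h1
  have h4 : p.1.ev n = g.ev n := h2
  rw [h3, ← h4]; rfl

theorem act_bot : Continuous[@instTopologicalSpaceProd G Y pw ⊥, ⊥]
    fun p : G × Y => OnePoint.map p.1.ev p.2 := by
  letI : TopologicalSpace Y := ⊥
  haveI : DiscreteTopology Y := ⟨rfl⟩
  rw [continuous_iff_continuousAt]
  rintro ⟨g, y⟩
  induction y using OnePoint.rec with
  | coe n => exact act_nat ⊥ (fun _ => isOpen_discrete _) g n
  | infty =>
    refine tendsto_const_nhds.congr' ?_
    filter_upwards [(continuous_snd.tendsto (g, (∞ : Y))).eventually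
      ((isOpen_discrete {∞}).mem_nhds rfl)] with p h1
    have h3 : p.2 = ∞ := h1
    rw [h3]; rfl

theorem std_nat (n : ℕ) : IsOpen {(n : Y)} := by
  simpa using OnePoint.isOpenEmbedding_coe.isOpenMap _ (isOpen_discrete {n})

theorem std_inf (U : Set Y) : U ∈ 𝓝 (∞ : Y) ↔ ∞ ∈ U ∧ {n : ℕ | (n : Y) ∉ U}.Finite := by
  rw [OnePoint.nhds_infty_eq, mem_sup, mem_map, Filter.coclosedCompact_eq_cocompact,
    cocompact_eq_cofinite, mem_pure, and_comm]
  rfl

theorem act_std : Continuous fun p : G × Y => OnePoint.map p.1.ev p.2 := by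
  rw [continuous_iff_continuousAt]
  rintro ⟨g, y⟩
  induction y using OnePoint.rec with
  | coe n => exact act_nat _ std_nat g n
  | infty =>
    intro U hU
    obtain ⟨h1, h2⟩ := (std_inf U).1 hU
    have h3 : ∀ᶠ k : G in 𝓝 g, ∀ m ∈ {n : ℕ | (n : Y) ∉ U}, k⁻¹.ev m = g⁻¹.ev m := by
      rw [eventually_all_finite h2]
      intro m _
      exact (((continuous_apply m).comp c_iev).tendsto g).eventually
        (show ∀ᶠ a in 𝓝 (g⁻¹.ev m), a = g⁻¹.ev m by simp)
    have h4 : ((fun m => ((g⁻¹.ev m : ℕ) : Y)) '' {n : ℕ | (n : Y) ∉ U})ᶜ ∈ 𝓝 (∞ : Y) :=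
      (h2.image _).isClosed.isOpen_compl.mem_nhds (by simp)
    rw [mem_map, nhds_prod_eq]
    filter_upwards [prod_mem_prod h3 h4] with p hp
    obtain ⟨k, y⟩ := p
    induction y using OnePoint.rec with
    | infty => exact h1
    | coe n =>
      by_contra hn
      have h5 : k⁻¹.ev (k.ev n) = g⁻¹.ev (k.ev n) := hp.1 _ hn
      exact hp.2 ⟨k.ev n, hn, congrArg _ (h5.symm.trans (inv_ev k n))⟩

theorem mover {A B : Set ℕ} (hA : A.Infinite) (hB : B.Infinite) :
    ∃ g : G, {n | n ∈ A ∧ g.ev n ∈ B}.Infinite := by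
  classical
  by_cases h : (A ∩ B).Infinite
  · exact ⟨1, h⟩
  rw [not_infinite] at h
  have hA' : (A \ B).Infinite := (hA.diff h).mono fun x hx => ⟨hx.1, fun b => hx.2 ⟨hx.1, b⟩⟩
  have hB' : (B \ A).Infinite := (hB.diff h).mono fun x hx => ⟨hx.1, fun b => hx.2 ⟨b, hx.1⟩⟩
  haveI := hA'.to_subtype
  haveI := hB'.to_subtype
  obtain ⟨e⟩ : Nonempty ((A \ B : Set ℕ) ≃ (B \ A : Set ℕ)) := inferInstance
  let f : ℕ → ℕ := fun x => if h : x ∈ A \ B then e ⟨x, h⟩ else
    if h : x ∈ B \ A then e.symm ⟨x, h⟩ else x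
  have hf : Function.Involutive f := by
    intro x
    by_cases h1 : x ∈ A \ B
    · have a1 : ((e ⟨x, h1⟩ : (B \ A : Set ℕ)) : ℕ) ∉ A \ B := fun a => (e ⟨x, h1⟩).2.2 a.1
      simp only [f, dif_pos h1, dif_neg a1, dif_pos (e ⟨x, h1⟩).2, Subtype.coe_eta,
        Equiv.symm_apply_apply]
    · by_cases h2 : x ∈ B \ A
      · simp only [f, dif_neg h1, dif_pos h2, dif_pos (e.symm ⟨x, h2⟩).2, Subtype.coe_eta,
          Equiv.apply_symm_apply]
      · simp only [f, dif_neg h1, dif_neg h2]
  refine ⟨hf.toPerm f, hA'.mono fun x hx => ⟨hx.1, ?_⟩⟩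
  show f x ∈ B
  simp only [f, dif_pos hx]
  exact (e ⟨x, hx⟩).2.1

theorem classY (t : TopologicalSpace Y) (hp : @PolishSpace Y t)
    (hc : ∀ g : G, Continuous[t, t] (OnePoint.map g.ev)) :
    t = ⊥ ∨ t = (OnePoint.instTopologicalSpace : TopologicalSpace Y) := by
  suffices H : ∀ t0 : TopologicalSpace Y, (∀ n : ℕ, IsOpen[t0] {(n : Y)}) →
      (∀ U : Set Y, U ∈ @nhds _ t0 (∞ : Y) ↔ ∞ ∈ U ∧ {n : ℕ | (n : Y) ∉ U}.Finite) →
      t = ⊥ ∨ t = t0 from H _ std_nat std_inf
  intro t0 s1 s2
  letI := t
  have iso : ∀ n : ℕ, IsOpen {(n : Y)} := by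
    have hd := dense_iUnion_interior_of_closed (f := fun y : Y => ({y} : Set Y))
      (fun y => isClosed_singleton) (iUnion_of_singleton Y)
    obtain ⟨z, hz, hz'⟩ := hd.inter_open_nonempty ({∞}ᶜ) isClosed_singleton.isOpen_compl
      ⟨(0 : ℕ), by simp⟩
    obtain ⟨y, hy⟩ := mem_iUnion.1 hz'
    obtain rfl : z = y := mem_singleton_iff.1 (interior_subset hy)
    have ho : IsOpen ({z} : Set Y) := (isOpen_singleton_iff_nhds_eq_pure _).2
      (le_antisymm (le_pure_iff.2 (mem_interior_iff_mem_nhds.1 hy)) (pure_le_nhds _))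
    induction z using OnePoint.rec with
    | infty => exact absurd rfl hz
    | coe m =>
      intro n
      have := ho.preimage (hc (Equiv.swap n m))
      convert this using 1
      ext y
      induction y using OnePoint.rec with
      | infty => simp
      | coe k =>
        show (k : Y) = n ↔ ((Equiv.swap n m k : ℕ) : Y) = m
        rw [OnePoint.coe_eq_coe, OnePoint.coe_eq_coe, Equiv.swap_apply_eq_iff, Equiv.swap_apply_right]
  by_cases h : IsOpen {(∞ : Y)}
  · left
    refine eq_bot_of_singletons_open fun y => ?_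
    induction y using OnePoint.rec with
    | infty => exact h
    | coe n => exact iso n
  · right
    refine TopologicalSpace.ext_nhds fun y => ?_
    induction y using OnePoint.rec with
    | coe n =>
      rw [(isOpen_singleton_iff_nhds_eq_pure _).1 (iso n),
        (@isOpen_singleton_iff_nhds_eq_pure _ t0 _).1 (s1 n)]
    | infty =>
      ext U
      rw [s2]
      constructor
      · intro hU
        refine ⟨mem_of_mem_nhds hU, ?_⟩
        by_contra hB
        have h1 : (∞ : Y) ∈ closure ({∞}ᶜ : Set Y) := by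
          by_contra h2
          rw [closure_compl, mem_compl_iff, not_not, mem_interior_iff_mem_nhds] at h2
          exact h ((isOpen_singleton_iff_nhds_eq_pure _).2
            (le_antisymm (le_pure_iff.2 h2) (pure_le_nhds _)))
        obtain ⟨x, hx, hx'⟩ := mem_closure_iff_seq_limit.1 h1
        have fin : ∀ V ∈ 𝓝 (∞ : Y), {n : ℕ | (n : Y) ∈ range x ∧ (n : Y) ∉ V}.Finite := by
          intro V hV
          obtain ⟨M, hM⟩ := eventually_atTop.1 (hx'.eventually hV)
          refine (((finite_Iio M).image x).preimage OnePoint.coe_injective.injOn).subset ?_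
          rintro n ⟨⟨k, hk⟩, hn⟩
          exact ⟨k, not_le.1 fun a => hn (hk ▸ hM k a), hk⟩
        have hA : {n : ℕ | (n : Y) ∈ range x}.Infinite := by
          intro hA
          have h2 : ((↑) '' {n : ℕ | (n : Y) ∈ range x} : Set Y)ᶜ ∈ 𝓝 (∞ : Y) :=
            (hA.image _).isClosed.isOpen_compl.mem_nhds (by simp)
          obtain ⟨k, hk⟩ := (hx'.eventually h2).exists
          obtain ⟨n, hn⟩ := OnePoint.ne_infty_iff_exists.1 (hx k)
          exact hk ⟨n, ⟨k, hn.symm⟩, hn⟩
        obtain ⟨g, hg⟩ := mover hA hB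
        exact hg (fin _ ((hc g).continuousAt (x := ∞) hU))
      · rintro ⟨h1, h2⟩
        refine mem_of_superset ((h2.image (↑)).isClosed.isOpen_compl.mem_nhds (by simp)) ?_
        intro y hy
        induction y using OnePoint.rec with
        | infty => exact h1
        | coe n => by_contra hn; exact hy ⟨n, hn, rfl⟩

theorem classS (t : TopologicalSpace S) (hm : @ContinuousMul S t _) (hp : @PolishSpace S t) :
    t = sumT ⊥ ∨ t = sumT (OnePoint.instTopologicalSpace : TopologicalSpace Y) := by
  let il : G → S := Sum.inl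
  let ir : Y → S := Sum.inr
  have r1 : range il = {s | ir (0 : ℕ) * s = ir (0 : ℕ)} := by
    ext s
    rcases s with g | y
    · exact ⟨fun _ => rfl, fun _ => ⟨g, rfl⟩⟩
    · exact ⟨fun ⟨_, h⟩ => (by cases h), fun h => (by cases h)⟩
  have r2 : range ir = {s | s * s = ir ∞} := by
    ext s
    rcases s with g | y
    · exact ⟨fun ⟨_, h⟩ => (by cases h), fun h => (by cases h)⟩
    · exact ⟨fun _ => rfl, fun _ => ⟨y, rfl⟩⟩
  have c1 : IsClosed (range il) := r1 ▸ isClosed_eq (by fun_prop) continuous_const
  have c2 : IsClosed (range ir) := r2 ▸ isClosed_eq (by fun_prop) continuous_const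
  have e1 : (range il)ᶜ = range ir := compl_range_inl
  have e2 : (range ir)ᶜ = range il := compl_range_inr
  have o1 : IsOpen (range il) := e2 ▸ c2.isOpen_compl
  have o2 : IsOpen (range ir) := e1 ▸ c1.isOpen_compl
  have eY : @IsEmbedding Y S (t.induced ir) t ir :=
    @IsEmbedding.mk _ _ (t.induced ir) t _ (@IsInducing.mk _ _ (t.induced ir) t _ rfl)
      Sum.inr_injective
  have pY : @PolishSpace Y (t.induced ir) :=
    @IsClosedEmbedding.polishSpace _ _ (t.induced ir) t _ _
      (@IsClosedEmbedding.mk _ _ (t.induced ir) t _ eY c2)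
  have cY : ∀ g : G, Continuous[t.induced ir, t.induced ir] (OnePoint.map g.ev) := fun g =>
    continuous_induced_rng.2 (@Continuous.comp _ _ _ (t.induced ir) t t _ _
      (continuous_const_mul (il g)) continuous_induced_dom)
  have hY := classY _ pY cY
  have iso : ∀ n : ℕ, IsOpen {ir n} := by
    intro n
    have h1 : IsOpen[t.induced ir] {(n : Y)} := by
      rcases hY with h | h <;> rw [h]
      · exact @isOpen_discrete _ ⊥ (discreteTopology_bot _) _
      · exact std_nat n
    have := @IsOpenEmbedding.isOpenMap _ _ _ (t.induced ir) t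
      (@IsOpenEmbedding.mk _ _ (t.induced ir) t _ eY o2) _ h1
    simpa using this
  have hG : t.induced il = pw := by
    haveI : PolishSpace (range il) := c1.polishSpace
    letI : Mul (range il) := ⟨fun a b => ⟨a.1 * b.1, by
      obtain ⟨_, a, rfl⟩ := a
      obtain ⟨_, b, rfl⟩ := b
      exact ⟨a * b, rfl⟩⟩⟩
    haveI : ContinuousMul (range il) := ⟨Continuous.subtype_mk (by fun_prop) _⟩
    let φ : G ≃ range il := Equiv.ofInjective il Sum.inl_injective
    have hv : ∀ a : range il, il (φ.symm a) = a.1 := fun a => congrArg Subtype.val (φ.apply_symm_apply a)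
    have k1 : ∀ n m : ℕ, IsOpen {a : range il | (φ.symm a).ev n = m} := by
      intro n m
      have := (iso m).preimage (show Continuous fun a : range il => a.1 * ir n by fun_prop)
      convert this using 1
      ext a
      rw [mem_preimage, ← hv a]
      exact ⟨fun h => congrArg (fun k : ℕ => ir k) h,
        fun h => OnePoint.coe_injective (Sum.inr_injective h)⟩
    have hc : Continuous φ.symm := by
      refine continuous_induced_rng.2 (Continuous.prodMk (continuous_pi fun n => ?_)
        (continuous_pi fun n => ?_)) <;> rw [continuous_discrete_rng] <;> intro m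
      · exact k1 n m
      · convert k1 m n using 1
        ext a
        exact ⟨fun h => by rw [← ev_inv (φ.symm a) n]; exact congrArg _ (Eq.symm h),
          fun h => by rw [← inv_ev (φ.symm a) m]; exact congrArg _ (Eq.symm h)⟩
    have hc' := pettis φ (fun a b => rfl) hc
    apply le_antisymm
    · have h1 : Continuous[t.induced il, _] φ :=
        @Continuous.subtype_mk _ _ _ (t.induced il) _ _ continuous_induced_dom _
      have h2 := @Continuous.comp _ _ _ (t.induced il) _ _ _ _ hc h1
      rw [Equiv.symm_comp_self] at h2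
      exact continuous_id_iff_le.1 h2
    · exact continuous_iff_le_induced.1 (continuous_subtype_val.comp hc')
  have key : t = sumT (t.induced ir) := by
    refine TopologicalSpace.ext_nhds ?_
    rintro (g | y)
    · refine Eq.trans ?_ (@nhds_inl G Y pw (t.induced ir) g).symm
      rw [← hG, nhds_induced]
      exact (map_comap_of_mem (m := il) (o1.mem_nhds ⟨g, rfl⟩)).symm
    · refine Eq.trans ?_ (@nhds_inr G Y pw (t.induced ir) y).symm
      rw [nhds_induced]
      exact (map_comap_of_mem (m := ir) (o2.mem_nhds ⟨y, rfl⟩)).symm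
  rcases hY with h | h
  · left; exact key.trans (congrArg sumT h)
  · right; exact key.trans (congrArg sumT h)

/-- There is a semigroup with exactly two Polish semigroup topologies; so `N(S)` can lie outside
`{0, 1, ℵ₀, 2^ℵ₀, 2^2^ℵ₀}`. -/
theorem result : ∃ (S : Type) (_ : Semigroup S), N S = 2 ∧
    N S ∉ ({0, 1, ℵ₀, 2 ^ ℵ₀, 2 ^ (2 : Cardinal.{0}) ^ ℵ₀} : Set Cardinal.{0}) := by
  have h : N S = 2 := by
    refine Cardinal.mk_eq_two_iff.2 ⟨⟨sumT ⊥, sum_mul _ act_bot, sum_polish _ ?_⟩,
      ⟨sumT _, sum_mul _ act_std, sum_polish _ polish_std⟩, fun h => ?_, ?_⟩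
    · letI : TopologicalSpace Y := ⊥
      haveI : DiscreteTopology Y := ⟨rfl⟩
      infer_instance
    · have h1 : sumT ⊥ = sumT (OnePoint.instTopologicalSpace : TopologicalSpace Y) :=
        congrArg Subtype.val h
      have h2 : IsOpen[sumT ⊥] {Sum.inr ∞} := by
        letI : TopologicalSpace Y := ⊥
        haveI : DiscreteTopology Y := ⟨rfl⟩
        have := (isOpenMap_inr (X := G) (Y := Y)) _ (isOpen_discrete {∞})
        rw [image_singleton] at this
        exact this
      rw [h1] at h2
      have h3 := (h2.preimage (continuous_inr (X := G) (Y := Y))).mem_nhds (x := ∞) rfl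
      refine Set.infinite_univ (((std_inf _).1 h3).2.subset fun n _ h => ?_)
      exact OnePoint.coe_ne_infty n (Sum.inr_injective h)
    · refine eq_univ_of_forall fun t => ?_
      rcases classS t.1 t.2.1 t.2.2 with h | h
      · exact Or.inl (Subtype.ext h)
      · exact Or.inr (Subtype.ext h)
  refine ⟨S, inferInstance, h, ?_⟩
  rw [h]
  have a0 : (2 : Cardinal.{0}) < ℵ₀ := ofNat_lt_aleph0
  have a1 : (2 : Cardinal.{0}) < 2 ^ ℵ₀ := a0.trans (cantor _)
  have a2 : (2 : Cardinal.{0}) < 2 ^ (2 : Cardinal.{0}) ^ ℵ₀ := a1.trans (cantor _)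
  simp only [mem_insert_iff, mem_singleton_iff, not_or]
  exact ⟨by norm_num, by norm_num, a0.ne, a1.ne, a2.ne⟩

end Pool.Agent.Results.MP_67072b_lc.TwoTop
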